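import Pool.Agent.Helper7.HL.Stmts

/-! # HL, row BW4: the two factor lemma -/

namespace Pool.Agent.Helper31.HL

open Finset
open Pool.Agent.Helper7.HL

lemma bw4_succ (N : ℕ) (c d : Finset ℕ) (j : ℕ) :
    wlk N c d (j + 1) = wlk N c d j +
      ((if j % N ∈ d then 1 else 0) - (if j % N ∈ c then 1 else 0) : ℤ) := by
  unfold wlk
  rw [Finset.sum_range_succ]

lemma bw4_mod {N i j : ℕ} (hi : i + 1 < N) : (j + 1) % N = i + 1 ↔ j % N = i := by
  have hN : 0 < N := by omega
  have h1 : (j + 1) % N = (j % N + 1) % N := (Nat.mod_add_mod j N 1).symm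
  have h2 := Nat.mod_lt j hN
  rw [h1]
  by_cases h : j % N + 1 < N
  · rw [Nat.mod_eq_of_lt h]; omega
  · have h3 : j % N + 1 = N := by omega
    rw [h3, Nat.mod_self]; omega

/-- moving one unit of the step from `i` to `i + 1` -/
lemma bw4_move {N i : ℕ} (hi : i + 1 < N) {c d c' d' : Finset ℕ} (e : ℤ)
    (hc : ∀ x, x ≠ i → x ≠ i + 1 → (x ∈ c' ↔ x ∈ c))
    (hd : ∀ x, x ≠ i → x ≠ i + 1 → (x ∈ d' ↔ x ∈ d))
    (h0 : ((if i ∈ d' then 1 else 0) - (if i ∈ c' then 1 else 0) : ℤ) =
      ((if i ∈ d then 1 else 0) - (if i ∈ c then 1 else 0) : ℤ) + e)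
    (h1 : ((if i + 1 ∈ d' then 1 else 0) - (if i + 1 ∈ c' then 1 else 0) : ℤ) =
      ((if i + 1 ∈ d then 1 else 0) - (if i + 1 ∈ c then 1 else 0) : ℤ) - e) (j : ℕ) :
    wlk N c' d' j = wlk N c d j + (if j % N = i + 1 then e else 0) := by
  induction j with
  | zero =>
    have : ¬ (0 % N = i + 1) := by rw [Nat.zero_mod]; omega
    rw [if_neg this]
    simp [wlk]
  | succ j ih =>
    rw [bw4_succ, bw4_succ, ih]
    by_cases hj : j % N = i
    · have e1 : (j + 1) % N = i + 1 := (bw4_mod hi).2 hj
      have e2 : ¬ (j % N = i + 1) := by omega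
      rw [if_pos e1, if_neg e2, hj, h0]
      ring
    · have e1 : ¬ ((j + 1) % N = i + 1) := fun h => hj ((bw4_mod hi).1 h)
      rw [if_neg e1]
      by_cases hj2 : j % N = i + 1
      · rw [if_pos hj2, hj2, h1]
        ring
      · rw [if_neg hj2]
        simp only [hc _ hj hj2, hd _ hj hj2]
        ring

lemma bw4_per {N : ℕ} {c d : Finset ℕ} (hc : c ⊆ range N) (hd : d ⊆ range N)
    (j : ℕ) : wlk N c d (j + N) = wlk N c d j + ((d.card : ℤ) - (c.card : ℤ)) := by
  induction j with
  | zero =>
    have e0 : wlk N c d 0 = 0 := by simp [wlk]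
    rw [e0, Nat.zero_add, zero_add]
    unfold wlk
    rw [Finset.sum_sub_distrib]
    have e1 : ∀ s : Finset ℕ, s ⊆ range N →
        ∑ i ∈ range N, (if i % N ∈ s then 1 else 0 : ℤ) = (s.card : ℤ) := by
      intro s hs
      have : ∀ i ∈ range N, (if i % N ∈ s then 1 else 0 : ℤ) = if i ∈ s then 1 else 0 := by
        intro i hi
        rw [Nat.mod_eq_of_lt (Finset.mem_range.1 hi)]
      rw [Finset.sum_congr rfl this, Finset.sum_ite_mem, Finset.inter_eq_right.2 hs]
      simp
    rw [e1 d hd, e1 c hc]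
  | succ j ih =>
    have e1 : j + 1 + N = (j + N) + 1 := by ring
    rw [e1, bw4_succ, ih, bw4_succ, Nat.add_mod_right]
    ring

lemma bw4_um_i {N i : ℕ} (hi : i + 1 < N) (c d : Finset ℕ) :
    i ∈ Um N c d ↔ i ∈ c ∧ wlk N c d (i + 1) < wlk N c d i ∧
      ∀ j ∈ Icc (i + 2) (i + N), wlk N c d j < wlk N c d i := by
  unfold Um
  rw [Finset.mem_filter]
  constructor
  · rintro ⟨h1, h2⟩
    refine ⟨h1, h2 _ (by rw [Finset.mem_Ioc]; omega), fun j hj => h2 j ?_⟩
    rw [Finset.mem_Icc] at hj
    rw [Finset.mem_Ioc]; omega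
  · rintro ⟨h1, h2, h3⟩
    refine ⟨h1, fun j hj => ?_⟩
    rw [Finset.mem_Ioc] at hj
    by_cases hji : j = i + 1
    · rw [hji]; exact h2
    · exact h3 j (by rw [Finset.mem_Icc]; omega)

lemma bw4_um_i1 {N i : ℕ} (hi : i + 1 < N) (c d : Finset ℕ) :
    i + 1 ∈ Um N c d ↔ i + 1 ∈ c ∧ wlk N c d (i + 1 + N) < wlk N c d (i + 1) ∧
      ∀ j ∈ Icc (i + 2) (i + N), wlk N c d j < wlk N c d (i + 1) := by
  unfold Um
  rw [Finset.mem_filter]
  constructor
  · rintro ⟨h1, h2⟩
    refine ⟨h1, h2 _ (by rw [Finset.mem_Ioc]; omega), fun j hj => h2 j ?_⟩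
    rw [Finset.mem_Icc] at hj
    rw [Finset.mem_Ioc]; omega
  · rintro ⟨h1, h2, h3⟩
    refine ⟨h1, fun j hj => ?_⟩
    rw [Finset.mem_Ioc] at hj
    by_cases hji : j = i + 1 + N
    · rw [hji]; exact h2
    · exact h3 j (by rw [Finset.mem_Icc]; omega)

/-- the maximum over the middle part -/
lemma bw4_T {N i : ℕ} (hi : i + 1 < N) (w : ℕ → ℤ) :
    ∃ T : ℤ, w (i + 2) ≤ T ∧ w (i + N) ≤ T ∧
      ∀ v : ℤ, (∀ j ∈ Icc (i + 2) (i + N), w j < v) ↔ T < v := by
  have hne : (Icc (i + 2) (i + N)).Nonempty := ⟨i + 2, by rw [Finset.mem_Icc]; omega⟩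
  obtain ⟨j0, hj0, hmax⟩ := Finset.exists_max_image (Icc (i + 2) (i + N)) w hne
  refine ⟨w j0, hmax _ (by rw [Finset.mem_Icc]; omega), hmax _ (by rw [Finset.mem_Icc]; omega),
    fun v => ⟨fun h => h j0 hj0, fun h j hj => lt_of_le_of_lt (hmax j hj) h⟩⟩

/-- the other elements: one direction -/
lemma bw4_other {N i : ℕ} (hi : i + 1 < N) {w w' : ℕ → ℤ}
    (hw : ∀ j, j % N ≠ i + 1 → w' j = w j)
    (hm : ∀ j, (j + 1) % N = i + 1 → w' (j + 1) ≤ w' j ∨ w' (j + 1) ≤ w' (j + 2))
    {x : ℕ} (hx : x < N) (hxi : x ≠ i) (hxi1 : x ≠ i + 1)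
    (h : ∀ j ∈ Ioc x (x + N), w j < w x) : ∀ j ∈ Ioc x (x + N), w' j < w' x := by
  have hxm : x % N = x := Nat.mod_eq_of_lt hx
  have hx' : w' x = w x := hw x (by rw [hxm]; exact hxi1)
  intro j hj
  rw [Finset.mem_Ioc] at hj
  by_cases hji : j % N = i + 1
  · obtain ⟨l, rfl⟩ : ∃ l, j = l + 1 := ⟨j - 1, by omega⟩
    have hl : l % N = i := (bw4_mod hi).1 hji
    have hlx : x < l := by
      rcases Nat.lt_or_ge x l with h1 | h1
      · exact h1
      · exfalso
        have : l = x := by omega
        rw [this, hxm] at hl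
        exact hxi hl
    have hlN : l + 2 ≤ x + N := by
      rcases Nat.lt_or_ge (x + N) (l + 2) with h1 | h1
      · exfalso
        have h2 : l + 1 = x + N := by omega
        rw [h2, Nat.add_mod_right, hxm] at hji
        exact hxi1 hji
      · exact h1
    have hl2 : (l + 2) % N ≠ i + 1 := by
      intro h1
      have := (bw4_mod (j := l + 1) hi).1 h1
      omega
    rcases hm l hji with h1 | h1
    · have h2 : w' l = w l := hw l (by omega)
      have h3 := h l (by rw [Finset.mem_Ioc]; omega)
      rw [hx']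
      linarith
    · have h2 : w' (l + 2) = w (l + 2) := hw _ hl2
      have h3 := h (l + 2) (by rw [Finset.mem_Ioc]; omega)
      rw [hx']
      linarith
  · rw [hw j hji, hx']
    exact h j (by rw [Finset.mem_Ioc]; omega)

lemma bw4_hen {N i : ℕ} (hi : i + 1 < N) {w w' : ℕ → ℤ}
    (hw : ∀ j, j % N ≠ i + 1 → w' j = w j)
    (hm : w' (i + 1) ≤ w' i ∨ w' (i + 1) ≤ w' (i + 2)) :
    (range (N + 1)).sup (fun j => (w' j).toNat) ≤ (range (N + 1)).sup (fun j => (w j).toNat) := by
  refine Finset.sup_le (fun j hj => ?_)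
  rw [Finset.mem_range] at hj
  by_cases hji : j % N = i + 1
  · have hj1 : j = i + 1 := by
      rcases Nat.lt_or_ge j N with h1 | h1
      · rw [Nat.mod_eq_of_lt h1] at hji; exact hji
      · exfalso
        have : j = N := by omega
        rw [this, Nat.mod_self] at hji
        omega
    subst hj1
    have e1 : i % N ≠ i + 1 := by rw [Nat.mod_eq_of_lt (by omega)]; omega
    have e2 : (i + 2) % N ≠ i + 1 := by
      intro h1
      have := (bw4_mod (j := i + 1) hi).1 h1
      rw [Nat.mod_eq_of_lt hi] at this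
      omega
    rcases hm with h1 | h1
    · rw [hw i e1] at h1
      refine le_trans (Int.toNat_le_toNat h1) ?_
      exact Finset.le_sup (f := fun j => (w j).toNat) (Finset.mem_range.2 (by omega))
    · rw [hw (i + 2) e2] at h1
      refine le_trans (Int.toNat_le_toNat h1) ?_
      exact Finset.le_sup (f := fun j => (w j).toNat) (Finset.mem_range.2 (by omega))
  · rw [hw j hji]
    exact Finset.le_sup (f := fun j => (w j).toNat) (Finset.mem_range.2 (by omega))


lemma bw4_hm {N i : ℕ} (hi : i + 1 < N) {c d : Finset ℕ}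
    (h : ((if i ∈ d then 1 else 0) - (if i ∈ c then 1 else 0) : ℤ) ≤ 0 ∨
      0 ≤ ((if i + 1 ∈ d then 1 else 0) - (if i + 1 ∈ c then 1 else 0) : ℤ)) :
    ∀ j, (j + 1) % N = i + 1 → wlk N c d (j + 1) ≤ wlk N c d j ∨
      wlk N c d (j + 1) ≤ wlk N c d (j + 2) := by
  intro j hj
  have hj0 : j % N = i := (bw4_mod hi).1 hj
  rcases h with h | h
  · left
    rw [bw4_succ, hj0]
    linarith
  · right
    have := bw4_succ N c d (j + 1)
    rw [hj] at this
    rw [show j + 2 = j + 1 + 1 by rfl, this]
    linarith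

/-- the common part of the cases -/
lemma bw4_core {N i : ℕ} (hi : i + 1 < N) {c d c' d' : Finset ℕ} (e : ℤ)
    (hcN : c ⊆ range N)
    (hc : ∀ x, x ≠ i → x ≠ i + 1 → (x ∈ c' ↔ x ∈ c))
    (hd : ∀ x, x ≠ i → x ≠ i + 1 → (x ∈ d' ↔ x ∈ d))
    (h0 : ((if i ∈ d' then 1 else 0) - (if i ∈ c' then 1 else 0) : ℤ) =
      ((if i ∈ d then 1 else 0) - (if i ∈ c then 1 else 0) : ℤ) + e)
    (h1 : ((if i + 1 ∈ d' then 1 else 0) - (if i + 1 ∈ c' then 1 else 0) : ℤ) =
      ((if i + 1 ∈ d then 1 else 0) - (if i + 1 ∈ c then 1 else 0) : ℤ) - e)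
    (hm : ((if i ∈ d then 1 else 0) - (if i ∈ c then 1 else 0) : ℤ) ≤ 0 ∨
      0 ≤ ((if i + 1 ∈ d then 1 else 0) - (if i + 1 ∈ c then 1 else 0) : ℤ))
    (hm' : ((if i ∈ d' then 1 else 0) - (if i ∈ c' then 1 else 0) : ℤ) ≤ 0 ∨
      0 ≤ ((if i + 1 ∈ d' then 1 else 0) - (if i + 1 ∈ c' then 1 else 0) : ℤ)) :
    Hen N c' d' = Hen N c d ∧
    (∀ x, x ≠ i → x ≠ i + 1 → (x ∈ Um N c' d' ↔ x ∈ Um N c d)) ∧
    wlk N c' d' i = wlk N c d i ∧ wlk N c' d' (i + 1) = wlk N c d (i + 1) + e ∧
    (∀ j ∈ Icc (i + 2) (i + N), wlk N c' d' j = wlk N c d j) := by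
  have hmv := bw4_move hi e hc hd h0 h1
  have hw : ∀ j, j % N ≠ i + 1 → wlk N c' d' j = wlk N c d j := by
    intro j hj
    rw [hmv j, if_neg hj, add_zero]
  have hii : i % N = i := Nat.mod_eq_of_lt (by omega)
  have hii1 : (i + 1) % N = i + 1 := Nat.mod_eq_of_lt hi
  have g := bw4_hm hi hm
  have g' := bw4_hm hi hm'
  refine ⟨le_antisymm ?_ ?_, ?_, hw i (by rw [hii]; omega), ?_, ?_⟩
  · exact bw4_hen hi hw (g' i hii1)
  · exact bw4_hen hi (fun j hj => (hw j hj).symm) (g i hii1)
  · intro x hx hx1
    by_cases hxN : x < N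
    · unfold Um
      rw [Finset.mem_filter, Finset.mem_filter, hc x hx hx1]
      constructor
      · rintro ⟨a1, a2⟩
        exact ⟨a1, bw4_other hi (fun j hj => (hw j hj).symm) g hxN hx hx1 a2⟩
      · rintro ⟨a1, a2⟩
        exact ⟨a1, bw4_other hi hw g' hxN hx hx1 a2⟩
    · have a1 : x ∉ c := fun h => hxN (Finset.mem_range.1 (hcN h))
      have a2 : x ∉ c' := fun h => a1 ((hc x hx hx1).1 h)
      unfold Um
      rw [Finset.mem_filter, Finset.mem_filter]
      exact ⟨fun h => absurd h.1 a2, fun h => absurd h.1 a1⟩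
  · rw [hmv, if_pos hii1]
  · intro j hj
    rw [Finset.mem_Icc] at hj
    apply hw
    intro h
    obtain ⟨l, rfl⟩ : ∃ l, j = l + 1 := ⟨j - 1, by omega⟩
    have h2 : l % N = i := (bw4_mod hi).1 h
    rcases Nat.lt_or_ge l N with h3 | h3
    · rw [Nat.mod_eq_of_lt h3] at h2; omega
    · obtain ⟨r, rfl⟩ : ∃ r, l = r + N := ⟨l - N, by omega⟩
      rw [Nat.add_mod_right, Nat.mod_eq_of_lt (by omega)] at h2
      omega

lemma bw4_ext {i : ℕ} {A B : Finset ℕ} (h : ∀ x, x ≠ i → x ≠ i + 1 → (x ∈ A ↔ x ∈ B))
    (h0 : i ∈ A ↔ i ∈ B) (h1 : i + 1 ∈ A ↔ i + 1 ∈ B) : A = B := by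
  ext x
  by_cases hx : x = i
  · rw [hx]; exact h0
  · by_cases hx1 : x = i + 1
    · rw [hx1]; exact h1
    · exact h x hx hx1

lemma bw4_fo (i : ℕ) (A B : Finset ℕ) : fo i [A, B] =
    if e1 i A < p1 i B then [A, insert (i + 1) (B.erase i)]
    else [insert (i + 1) (A.erase i), B] := by
  have h1 : phi i [B] = p1 i B := by simp [phi]
  have h2 : fo i [B] = [insert (i + 1) (B.erase i)] := by simp [fo, phi]
  show (if e1 i A < phi i [B] then A :: fo i [B] else insert (i + 1) (A.erase i) :: [B]) = _
  rw [h1, h2]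

lemma bw4_pair {A B A' B' : Finset ℕ} (h1 : A = A') (h2 : B = B') : [A, B] = [A', B'] := by
  rw [h1, h2]

theorem st_BW4 : ST_BW4 := by
  intro N i c d hi hc hd hcard
  obtain ⟨T, hT2, hTN, hT⟩ := bw4_T hi (wlk N c d)
  have hUi := bw4_um_i hi c d
  have hUi1 := bw4_um_i1 hi c d
  rw [hT] at hUi hUi1
  have hii : i % N = i := Nat.mod_eq_of_lt (by omega)
  have hii1 : (i + 1) % N = i + 1 := Nat.mod_eq_of_lt hi
  have hs := bw4_succ N c d i
  rw [hii] at hs
  have hs1 := bw4_succ N c d (i + 1)
  rw [hii1, show i + 1 + 1 = i + 2 by rfl] at hs1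
  have hp := bw4_per hc hd i
  have hp1 := bw4_per hc hd (i + 1)
  rw [hp1] at hUi1
  rw [hp] at hTN
  have hmm : ((d.card : ℤ) - (c.card : ℤ)) ≤ 0 := by
    have : (d.card : ℤ) ≤ (c.card : ℤ) := by exact_mod_cast hcard
    linarith
  have hne : i + 1 ≠ i := by omega
  refine ⟨?_, ?_, ?_⟩
  · simp only [phi, p1, e1, Rl, Rr, Finset.mem_sdiff, Finset.mem_union]
    by_cases a : i ∈ c <;> by_cases a' : i + 1 ∈ c <;> by_cases b : i ∈ d <;>
      by_cases b' : i + 1 ∈ d <;> by_cases u : i ∈ Um N c d <;>
      by_cases u' : i + 1 ∈ Um N c d <;>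
      simp only [a, a', b, b', u, u', if_true, if_false, true_and, false_and, true_iff,
        false_iff, not_true, not_false_iff, and_true, and_false, true_or, false_or,
        or_true, or_false] at hs hs1 hUi hUi1 ⊢ <;> omega
  · simp only [eps, phi, p1, e1, Rl, Rr, Finset.mem_sdiff, Finset.mem_union]
    by_cases a : i ∈ c <;> by_cases a' : i + 1 ∈ c <;> by_cases b : i ∈ d <;>
      by_cases b' : i + 1 ∈ d <;> by_cases u : i ∈ Um N c d <;>
      by_cases u' : i + 1 ∈ Um N c d <;>
      simp only [a, a', b, b', u, u', if_true, if_false, true_and, false_and, true_iff,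
        false_iff, not_true, not_false_iff, and_true, and_false, true_or, false_or,
        or_true, or_false] at hs hs1 hUi hUi1 ⊢ <;> omega
  · intro hpos c' d' hfo
    rw [bw4_fo] at hfo
    have hpos' : 0 < p1 i c + (p1 i d - e1 i c) := by
      simpa [phi] using hpos
    by_cases hcase : e1 i c < p1 i d
    · rw [if_pos hcase] at hfo
      have hc' : c = c' := by simpa using (List.cons.inj hfo).1
      have hd' : insert (i + 1) (d.erase i) = d' := by
        simpa using (List.cons.inj (List.cons.inj hfo).2).1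
      subst hc'
      subst hd'
      have bd : i ∈ d := by
        by_contra h
        simp [p1, h] at hcase
      have bd' : i + 1 ∉ d := by
        intro h
        simp [p1, h] at hcase
      have bc : i + 1 ∈ c → i ∈ c := by
        intro h
        by_contra h'
        simp [p1, e1, h, h', bd, bd'] at hcase
      have m0 : i ∉ insert (i + 1) (d.erase i) := by simp
      have m1 : i + 1 ∈ insert (i + 1) (d.erase i) := by simp
      have mo : ∀ x, x ≠ i → x ≠ i + 1 → (x ∈ insert (i + 1) (d.erase i) ↔ x ∈ d) := by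
        intro x h1 h2
        simp [h1, h2]
      obtain ⟨k1, k2, k3, k4, k5⟩ := bw4_core (c := c) (d := d) (c' := c)
        (d' := insert (i + 1) (d.erase i)) hi (-1) hc (fun x _ _ => Iff.rfl) mo
        (by rw [if_neg m0, if_pos bd]; ring) (by rw [if_pos m1, if_neg bd']; ring)
        (by
          rw [if_pos bd, if_neg bd']
          by_cases a : i ∈ c
          · left; rw [if_pos a]; norm_num
          · right; rw [if_neg (fun h => a (bc h))]; norm_num)
        (by left; rw [if_neg m0]; split_ifs <;> norm_num)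
      refine ⟨?_, k1⟩
      have hUi' := bw4_um_i hi c (insert (i + 1) (d.erase i))
      have hUi1' := bw4_um_i1 hi c (insert (i + 1) (d.erase i))
      have hT' : ∀ v : ℤ, (∀ j ∈ Icc (i + 2) (i + N),
          wlk N c (insert (i + 1) (d.erase i)) j < v) ↔ T < v := by
        intro v
        rw [← hT v]
        constructor
        · intro h j hj
          rw [← k5 j hj]; exact h j hj
        · intro h j hj
          rw [k5 j hj]; exact h j hj
      have hd'N : insert (i + 1) (d.erase i) ⊆ range N := by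
        intro x hx
        rw [Finset.mem_insert, Finset.mem_erase] at hx
        rcases hx with h | h
        · rw [Finset.mem_range]; omega
        · exact hd h.2
      have hdc : (insert (i + 1) (d.erase i)).card = d.card := by
        rw [Finset.card_insert_of_notMem (by simp [bd']), Finset.card_erase_of_mem bd]
        have := Finset.card_pos.2 ⟨i, bd⟩
        omega
      rw [hT', k3, k4] at hUi'
      rw [hT', bw4_per hc hd'N, k4, hdc] at hUi1'
      rw [bw4_fo]
      simp only [bd, bd', m0, m1, if_true, if_false, not_true, not_false_iff, true_and,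
        and_true] at hs hs1
      have oth : ∀ x, x ≠ i → x ≠ i + 1 → (x ∈ Rl N c (insert (i + 1) (d.erase i)) ↔
          x ∈ Rl N c d) := by
        intro x h1 h2
        simp only [Rl, Finset.mem_sdiff, k2 x h1 h2]
      have oth' : ∀ x, x ≠ i → x ≠ i + 1 → (x ∈ Rr N c (insert (i + 1) (d.erase i)) ↔
          x ∈ Rr N c d) := by
        intro x h1 h2
        simp only [Rr, Finset.mem_union, k2 x h1 h2, mo x h1 h2]
      have hneN : ¬ (i + 1 = i) := hne
      have hneN' : ¬ (i = i + 1) := fun h => hne h.symm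
      by_cases a : i ∈ c <;> by_cases a' : i + 1 ∈ c <;> by_cases u : i ∈ Um N c d <;>
        by_cases u' : i + 1 ∈ Um N c d <;>
        by_cases v : i ∈ Um N c (insert (i + 1) (d.erase i)) <;>
        by_cases v' : i + 1 ∈ Um N c (insert (i + 1) (d.erase i)) <;>
        simp only [a, a', u, u', v, v', if_true, if_false, true_and, false_and, true_iff,
          false_iff, not_true, not_false_iff, and_true, and_false, true_or, false_or,
          or_true, or_false] at hs hs1 hUi hUi1 hUi' hUi1' bc <;>
        first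
        | (exact (bc trivial).elim)
        | (exfalso; omega)
        | (split_ifs with hh <;>
            simp only [e1, p1, Rl, Rr, Finset.mem_sdiff, Finset.mem_union, a, a', u, u', bd, bd',
              if_true, if_false, true_and, false_and, not_true, not_false_iff, and_true,
              and_false, true_or, false_or, or_true, or_false, lt_irrefl, Nat.not_lt_zero,
              Nat.lt_one_iff, zero_lt_one] at hh <;>
            refine bw4_pair (bw4_ext (i := i) ?_ ?_ ?_) (bw4_ext (i := i) ?_ ?_ ?_) <;>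
            first
            | (intro x h1 h2
               simp only [oth x h1 h2, oth' x h1 h2, Finset.mem_insert, Finset.mem_erase,
                 h1, h2, false_or, ne_eq, not_false_iff, true_and])
            | (simp only [Rl, Rr, Finset.mem_sdiff, Finset.mem_union, Finset.mem_insert,
                Finset.mem_erase, a, a', u, u', v, v', bd, bd', hneN, hneN', ne_eq,
                not_true, not_false_iff, true_and, false_and, and_true, and_false, true_or,
                false_or, or_true, or_false]))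
    · rw [if_neg hcase] at hfo
      have hc' : insert (i + 1) (c.erase i) = c' := by simpa using (List.cons.inj hfo).1
      have hd' : d = d' := by
        simpa using (List.cons.inj (List.cons.inj hfo).2).1
      subst hc'
      subst hd'
      have hp1c : 0 < p1 i c := by omega
      have bd : i ∈ c := by
        by_contra h
        simp [p1, h] at hp1c
      have bd' : i + 1 ∉ c := by
        intro h
        simp [p1, h] at hp1c
      have bc : i ∈ d → i + 1 ∈ d := by
        intro h
        by_contra h'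
        simp [p1, e1, h, h', bd, bd'] at hcase
      have m0 : i ∉ insert (i + 1) (c.erase i) := by simp
      have m1 : i + 1 ∈ insert (i + 1) (c.erase i) := by simp
      have mo : ∀ x, x ≠ i → x ≠ i + 1 → (x ∈ insert (i + 1) (c.erase i) ↔ x ∈ c) := by
        intro x h1 h2
        simp [h1, h2]
      obtain ⟨k1, k2, k3, k4, k5⟩ := bw4_core (c := c) (d := d)
        (c' := insert (i + 1) (c.erase i)) (d' := d) hi 1 hc mo (fun x _ _ => Iff.rfl)
        (by rw [if_neg m0, if_pos bd]; ring) (by rw [if_pos m1, if_neg bd']; ring)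
        (by left; rw [if_pos bd]; split_ifs <;> norm_num)
        (by
          rw [if_neg m0, if_pos m1]
          by_cases a : i ∈ d
          · right; rw [if_pos (bc a)]; norm_num
          · left; rw [if_neg a]; norm_num)
      refine ⟨?_, k1⟩
      have hUi' := bw4_um_i hi (insert (i + 1) (c.erase i)) d
      have hUi1' := bw4_um_i1 hi (insert (i + 1) (c.erase i)) d
      have hT' : ∀ v : ℤ, (∀ j ∈ Icc (i + 2) (i + N),
          wlk N (insert (i + 1) (c.erase i)) d j < v) ↔ T < v := by
        intro v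
        rw [← hT v]
        constructor
        · intro h j hj
          rw [← k5 j hj]; exact h j hj
        · intro h j hj
          rw [k5 j hj]; exact h j hj
      have hd'N : insert (i + 1) (c.erase i) ⊆ range N := by
        intro x hx
        rw [Finset.mem_insert, Finset.mem_erase] at hx
        rcases hx with h | h
        · rw [Finset.mem_range]; omega
        · exact hc h.2
      have hdc : (insert (i + 1) (c.erase i)).card = c.card := by
        rw [Finset.card_insert_of_notMem (by simp [bd']), Finset.card_erase_of_mem bd]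
        have := Finset.card_pos.2 ⟨i, bd⟩
        omega
      rw [hT', k3, k4] at hUi'
      rw [hT', bw4_per hd'N hd, k4, hdc] at hUi1'
      rw [bw4_fo]
      simp only [bd, bd', m0, m1, if_true, if_false, true_and, false_and,
        true_iff, false_iff] at hs hs1 hUi hUi1 hUi' hUi1'
      have oth : ∀ x, x ≠ i → x ≠ i + 1 → (x ∈ Rl N (insert (i + 1) (c.erase i)) d ↔
          x ∈ Rl N c d) := by
        intro x h1 h2
        simp only [Rl, Finset.mem_sdiff, k2 x h1 h2, mo x h1 h2]
      have oth' : ∀ x, x ≠ i → x ≠ i + 1 → (x ∈ Rr N (insert (i + 1) (c.erase i)) d ↔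
          x ∈ Rr N c d) := by
        intro x h1 h2
        simp only [Rr, Finset.mem_union, k2 x h1 h2]
      have hneN : ¬ (i + 1 = i) := hne
      have hneN' : ¬ (i = i + 1) := fun h => hne h.symm
      by_cases a : i ∈ d <;> by_cases a' : i + 1 ∈ d <;> by_cases u : i ∈ Um N c d <;>
        by_cases u' : i + 1 ∈ Um N c d <;>
        by_cases v : i ∈ Um N (insert (i + 1) (c.erase i)) d <;>
        by_cases v' : i + 1 ∈ Um N (insert (i + 1) (c.erase i)) d <;>
        simp only [a, a', u, u', v, v', if_true, if_false, true_and, false_and, true_iff,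
          false_iff, not_true, not_false_iff, and_true, and_false, true_or, false_or,
          or_true, or_false] at hs hs1 hUi hUi1 hUi' hUi1' bc <;>
        first
        | (exact (bc trivial).elim)
        | (exfalso; omega)
        | (split_ifs with hh <;>
            simp only [e1, p1, Rl, Rr, Finset.mem_sdiff, Finset.mem_union, a, a', u, u', bd, bd',
              if_true, if_false, true_and, false_and, not_true, not_false_iff, and_true,
              and_false, true_or, false_or, or_true, or_false, lt_irrefl, Nat.not_lt_zero,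
              Nat.lt_one_iff, zero_lt_one] at hh <;>
            refine bw4_pair (bw4_ext (i := i) ?_ ?_ ?_) (bw4_ext (i := i) ?_ ?_ ?_) <;>
            first
            | (intro x h1 h2
               simp only [oth x h1 h2, oth' x h1 h2, Finset.mem_insert, Finset.mem_erase,
                 h1, h2, false_or, ne_eq, not_false_iff, true_and])
            | (simp only [Rl, Rr, Finset.mem_sdiff, Finset.mem_union, Finset.mem_insert,
                Finset.mem_erase, a, a', u, u', v, v', bd, bd', hneN, hneN', ne_eq,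
                not_true, not_false_iff, true_and, false_and, and_true, and_false, true_or,
                false_or, or_true, or_false]))

end Pool.Agent.Helper31.HL
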